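import Pool.Agent.Helper75.FU.StM

set_option autoImplicit false

namespace Pool.Agent.Helper42.FU

open Pool.Agent.Helper75.FU Pool.Agent.Helper91.GU

universe u

theorem hM4 : StM4.{u} := by
  intro R _ N _ κ r hN0 π hπ v hUm hfix
  let f : AddMonoidHom.mker κ →+ N := (AddMonoidHom.mker κ).subtype
  have hf : Function.Injective f := Subtype.val_injective
  let ι : AddMonoidAlgebra R (AddMonoidHom.mker κ) →+* AddMonoidAlgebra R N :=
    AddMonoidAlgebra.mapDomainRingHom R f
  have hι : Function.Injective ι := AddMonoidAlgebra.mapDomain_injective hf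
  -- elements fixed by π come from the face
  have hb : ∀ x : AddMonoidAlgebra R N, π x = x → ∃ y, ι y = x := by
    intro x hx
    refine ⟨AddMonoidAlgebra.comapDomain f hf x, ?_⟩
    show AddMonoidAlgebra.mapDomain f (AddMonoidAlgebra.comapDomain f hf x) = x
    apply AddMonoidAlgebra.mapDomain_comapDomain
    intro m hm
    have hm' : x.coeff m ≠ 0 := Finsupp.mem_support_iff.mp hm
    have h1 := hπ x m
    rw [hx] at h1
    have h2 : κ m = 0 := by
      by_contra h
      rw [if_neg h] at h1
      exact hm' h1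
    exact ⟨⟨m, h2⟩, rfl⟩
  have hc : ∀ y, π (ι y) = ι y := by
    intro y
    apply AddMonoidAlgebra.coeff_injective
    ext m
    rw [hπ]
    by_cases h : κ m = 0
    · rw [if_pos h]
    · rw [if_neg h]
      symm
      show (Finsupp.mapDomain f y.coeff) m = 0
      apply Finsupp.mapDomain_of_notMem_range
      rintro ⟨z, hz⟩
      apply h
      rw [← hz]
      exact z.2
  have hd : ∀ x, π (π x) = π x := by
    intro x
    apply AddMonoidAlgebra.coeff_injective
    ext m
    rw [hπ]
    by_cases h : κ m = 0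
    · rw [if_pos h]
    · rw [if_neg h, hπ, if_neg h]
  choose v' hv' using fun l => hb (v l) (hfix l)
  obtain ⟨w, hw⟩ := hUm
  choose w' hw' using fun l => hb (π (w l)) (hd (w l))
  have h1 : v' ⬝ᵥ w' = 1 := by
    apply hι
    rw [map_one]
    have h2 : π (v ⬝ᵥ w) = 1 := by rw [hw, map_one]
    rw [← h2]
    simp only [dotProduct, map_sum, map_mul]
    refine Finset.sum_congr rfl (fun l _ => ?_)
    rw [hv', hw', hfix]
  obtain ⟨g', hg', hgv⟩ := hN0 v' ⟨w', h1⟩
  refine ⟨(g'⁻¹).map ι, ?_, ?_, ?_⟩
  · have h3 : ((g'⁻¹).map ι).det = ι (g'⁻¹).det := by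
      rw [RingHom.map_det]; rfl
    rw [h3]
    apply IsUnit.map
    exact Matrix.isUnit_nonsing_inv_det _ hg'
  · apply Matrix.ext
    intro i j
    simp only [Matrix.map_apply]
    exact hc _
  · funext l
    have h4 : Matrix.vecMul (row (1 : AddMonoidAlgebra R (AddMonoidHom.mker κ)) 0) g'⁻¹ = v' := by
      rw [← hgv, Matrix.vecMul_vecMul, Matrix.mul_nonsing_inv _ hg', Matrix.vecMul_one]
    have h5 : (ι ∘ row (1 : AddMonoidAlgebra R (AddMonoidHom.mker κ)) (0 : Fin r → _)) =
        row (1 : AddMonoidAlgebra R N) (0 : Fin r → AddMonoidAlgebra R N) := by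
      funext j
      rcases j with j | j
      · simp [row]
      · simp [row]
    rw [← h5, ← RingHom.map_vecMul, h4, hv']

end Pool.Agent.Helper42.FU
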